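import Mathlib
import Pool.Agent.Lib.MP_bc74b8_gt.Defs
import Pool.Agent.Lib.MP_bc74b8_gt.TauTau
import Pool.Agent.Lib.MP_bc74b8_gt.CH.Main
import Pool.Agent.Lib.MP_bc74b8_gt.SMZ.Defs
import Pool.Agent.Lib.MP_bc74b8_gt.SMZ.Decided

set_option autoImplicit false

namespace Pool.Agent.Results.MP_bc74b8_gt.AllThreeDecided

open Pool.Agent.MP_bc74b8_gt

/-- The answer to the question for all three properties.
(1) `Split(Omega, Omega)`: there is a set of reals with this property none of whose powers `X^n`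
with `n ≥ 2` has it.
(2) `Split(Tau, Tau)`: it is preserved under finite powers if and only if no nonprincipal
ultrafilter on the natural numbers has a base which is linearly ordered by almost inclusion (there
is no simple P-point).
(3) `Split(Omega, Tau)`: it is preserved under finite powers if and only if it coincides with
`Split(Omega, Gamma)` for sets of reals; and this is the case if the Borel conjecture holds.
(4) Under the continuum hypothesis, for each of the three properties there is a set of reals which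
has the property while none of its powers `X^n` with `n ≥ 2` has it. -/
theorem result :
    (∃ X : Set ℝ, SplitOmegaOmega X ∧ ∀ n : ℕ, 2 ≤ n → ¬ SplitOmegaOmega (Fin n → X)) ∧
    ((∀ X : Set ℝ, SplitTauTau X → ∀ n : ℕ, 1 ≤ n → SplitTauTau (Fin n → X)) ↔
      ¬ ∃ p : Ultrafilter ℕ, (p : Filter ℕ) ≤ Filter.cofinite ∧ HasLinearBase p) ∧
    ((∀ X : Set ℝ, SplitOmegaTau X → ∀ n : ℕ, 1 ≤ n → SplitOmegaTau (Fin n → X)) ↔
      (∀ X : Set ℝ, SplitOmegaTau X ↔ SplitOmegaGamma X)) ∧
    (BorelConjecture →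
      ∀ X : Set ℝ, SplitOmegaTau X → ∀ n : ℕ, 1 ≤ n → SplitOmegaTau (Fin n → X)) ∧
    (Cardinal.continuum.{0} = Cardinal.aleph 1 →
      (∃ X : Set ℝ, SplitOmegaOmega X ∧ ∀ n : ℕ, 2 ≤ n → ¬ SplitOmegaOmega (Fin n → X)) ∧
      (∃ X : Set ℝ, SplitOmegaTau X ∧ ∀ n : ℕ, 2 ≤ n → ¬ SplitOmegaTau (Fin n → X)) ∧
      (∃ X : Set ℝ, SplitTauTau X ∧ ∀ n : ℕ, 2 ≤ n → ¬ SplitTauTau (Fin n → X))) :=
  ⟨splitOmegaOmega_not_preserved, splitTauTau_preserved_iff, splitOmegaTau_preserved_iff,
    splitOmegaTau_preserved_of_borel, CHL.none_preserved⟩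

end Pool.Agent.Results.MP_bc74b8_gt.AllThreeDecided
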