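import Mathlib
import Pool.Agent.Lib.MP_bc74b8_gt.Defs
import Pool.Agent.Lib.MP_bc74b8_gt.Powers

set_option autoImplicit false

namespace Pool.Agent.Results.MP_bc74b8_gt.OmegaOmegaPowers

open Pool.Agent.MP_bc74b8_gt

/-- There is a set of reals `X` with `Split(Omega, Omega)` such that no power `X^k` with `k ≥ 2`
has `Split(Omega, Omega)`. -/
theorem result : ∃ X : Set ℝ, SplitOmegaOmega X ∧
    ∀ k : ℕ, 2 ≤ k → ¬ SplitOmegaOmega (Fin k → X) :=
  splitOmegaOmega_not_preserved

end Pool.Agent.Results.MP_bc74b8_gt.OmegaOmegaPowers
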