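import Mathlib
import Pool.Agent.Lib.MP_bc74b8_gt.Defs
import Pool.Agent.Lib.MP_bc74b8_gt.SMZ.Defs
import Pool.Agent.Lib.MP_bc74b8_gt.SMZ.Decided

set_option autoImplicit false

namespace Pool.Agent.Results.MP_bc74b8_gt.OmegaTauDecided

open Pool.Agent.MP_bc74b8_gt

/-- The property `Split(Omega, Tau)` of sets of reals and its finite powers.
(1) Every set of reals with `Split(Omega, Tau)` has strong measure zero.
(2) For a set of reals `X` and `n ≥ 2`, the power `X^n` has `Split(Omega, Tau)` if and only if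
`X` has `Split(Omega, Gamma)`.
(3) `Split(Omega, Tau)` is preserved under finite powers if and only if `Split(Omega, Tau)` and
`Split(Omega, Gamma)` coincide for sets of reals.
(4) If the Borel conjecture holds, then `Split(Omega, Tau)` is preserved under finite powers.
(5) If the continuum hypothesis holds, then there is a set of reals with `Split(Omega, Tau)` none
of whose powers `X^n` with `n ≥ 2` has `Split(Omega, Tau)`. -/
theorem result :
    (∀ X : Set ℝ, SplitOmegaTau X → StrongMeasureZero X) ∧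
    (∀ (X : Set ℝ) (n : ℕ), 2 ≤ n → (SplitOmegaTau (Fin n → X) ↔ SplitOmegaGamma X)) ∧
    ((∀ X : Set ℝ, SplitOmegaTau X → ∀ n : ℕ, 1 ≤ n → SplitOmegaTau (Fin n → X)) ↔
      (∀ X : Set ℝ, SplitOmegaTau X ↔ SplitOmegaGamma X)) ∧
    (BorelConjecture →
      ∀ X : Set ℝ, SplitOmegaTau X → ∀ n : ℕ, 1 ≤ n → SplitOmegaTau (Fin n → X)) ∧
    (Cardinal.continuum.{0} = Cardinal.aleph 1 →
      ∃ X : Set ℝ, SplitOmegaTau X ∧ ∀ n : ℕ, 2 ≤ n → ¬ SplitOmegaTau (Fin n → X)) :=
  ⟨splitOmegaTau_smz, splitOmegaTau_pi_iff, splitOmegaTau_preserved_iff,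
    splitOmegaTau_preserved_of_borel, fun h => (CHL.none_preserved h).2.1⟩

end Pool.Agent.Results.MP_bc74b8_gt.OmegaTauDecided
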