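import Mathlib
import Pool.Agent.Lib.MP_bc74b8_gt.Defs
import Pool.Agent.Lib.MP_bc74b8_gt.TauTau

set_option autoImplicit false

namespace Pool.Agent.Results.MP_bc74b8_gt.TauTauPowers

open Pool.Agent.MP_bc74b8_gt

/-- `Split(Tau, Tau)` is preserved under finite powers if and only if no nonprincipal ultrafilter
on the natural numbers has a base which is linearly ordered by almost inclusion, that is,
if and only if there is no simple P-point. -/
theorem result :
    (∀ X : Set ℝ, SplitTauTau X → ∀ n : ℕ, 1 ≤ n → SplitTauTau (Fin n → X)) ↔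
      ¬ ∃ p : Ultrafilter ℕ, (p : Filter ℕ) ≤ Filter.cofinite ∧ HasLinearBase p :=
  splitTauTau_preserved_iff

end Pool.Agent.Results.MP_bc74b8_gt.TauTauPowers
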